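import Mathlib

namespace Pool.Agent.H.MP_0f7a95_an

open Complex Filter Set NormedSpace
open scoped Nat ComplexConjugate

set_option maxHeartbeats 400000

theorem pl_zero {K : ℂ → ℂ} (hK : Differentiable ℂ K) {D : ℝ}
    (h : ∀ z, ‖K z‖ ≤ D * Real.exp (‖z‖ - 3 / 2 * |z.im|)) (z : ℂ) : K z = 0 := by
  have hD : 0 ≤ D := by simpa using (norm_nonneg _).trans (h 0)
  set L : ℂ → ℂ := fun w => K ((1 + I) * w) with hL
  have hLd : Differentiable ℂ L := hK.comp (by fun_prop)
  have hn : ‖(1 + I : ℂ)‖ ≤ 3 / 2 := by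
    refine le_of_sq_le_sq ?_ (by norm_num)
    rw [Complex.sq_norm, normSq_apply]; simp; norm_num
  have key : ∀ w : ℂ, |((1 + I) * w).im| = ‖w‖ → ‖L w‖ ≤ D := by
    intro w hw
    refine (h _).trans (mul_le_of_le_one_right hD (Real.exp_le_one_iff.2 ?_))
    rw [hw, norm_mul]
    nlinarith [norm_nonneg w]
  have h1 : ∀ x : ℝ, ‖L x‖ ≤ D := fun x => key _ (by simp)
  have h2 : ∀ x : ℝ, ‖L (x * I)‖ ≤ D := fun x => key _ (by simp)
  have hB : ∀ l : Filter ℂ, ∃ c < (2:ℝ), ∃ B, L =O[l] fun z => Real.exp (B * ‖z‖ ^ c) := by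
    intro l
    refine ⟨1, by norm_num, 3 / 2, Asymptotics.IsBigO.of_bound D (Eventually.of_forall fun w => ?_)⟩
    refine (h _).trans ?_
    rw [Real.norm_eq_abs, abs_of_pos (Real.exp_pos _), Real.rpow_one, norm_mul]
    gcongr
    nlinarith [norm_nonneg w, abs_nonneg ((1 + I) * w).im]
  have hb : ∀ w, ‖L w‖ ≤ D := by
    intro w
    rcases le_total 0 w.re with a | a <;> rcases le_total 0 w.im with b | b
    · exact PhragmenLindelof.quadrant_I hLd.diffContOnCl (hB _) (fun x _ => h1 x)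
        (fun x _ => h2 x) a b
    · exact PhragmenLindelof.quadrant_IV hLd.diffContOnCl (hB _) (fun x _ => h1 x)
        (fun x _ => h2 x) a b
    · exact PhragmenLindelof.quadrant_II hLd.diffContOnCl (hB _) (fun x _ => h1 x)
        (fun x _ => h2 x) a b
    · exact PhragmenLindelof.quadrant_III hLd.diffContOnCl (hB _) (fun x _ => h1 x)
        (fun x _ => h2 x) a b
  have hne : (1 + I : ℂ) ≠ 0 := fun h => by simpa using congrArg Complex.re h
  have hc : ∀ w, K z = K w := by
    intro w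
    have := hLd.apply_eq_apply_of_bounded
      (isBounded_iff_forall_norm_le.2 ⟨D, by rintro _ ⟨w, rfl⟩; exact hb w⟩)
      ((1 + I)⁻¹ * z) ((1 + I)⁻¹ * w)
    simpa only [hL, mul_inv_cancel_left₀ hne] using this
  have ht : Tendsto (fun t : ℝ => D * Real.exp (-(1 / 2 * t))) atTop (nhds (D * 0)) :=
    (Real.tendsto_exp_neg_atTop_nhds_zero.comp
      (tendsto_id.const_mul_atTop (by norm_num))).const_mul D
  rw [← norm_le_zero_iff, ← mul_zero D]
  refine ge_of_tendsto ht ((eventually_ge_atTop 0).mono fun t ht => ?_)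
  rw [hc (t * I)]
  refine (h _).trans (le_of_eq ?_)
  congr 2
  simp [abs_of_nonneg ht]; ring

variable {A : Type*} [NormedCommRing A] [NormedAlgebra ℂ A] [CompleteSpace A]

theorem hs (f : StrongDual ℂ A) (a : A) (z : ℂ) :
    HasSum (fun n => z ^ n / n ! * f (a ^ n)) (f (exp (z • a))) := by
  have := (exp_series_hasSum_exp' (𝕂 := ℂ) (z • a)).mapL f
  have e : (fun n => z ^ n / n ! * f (a ^ n)) = fun n => f (((n ! : ℂ)⁻¹) • (z • a) ^ n) := by
    ext n
    rw [smul_pow, map_smul, map_smul, smul_eq_mul, smul_eq_mul]; ring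
  rw [e]; exact this

theorem hexp (r : ℝ) : HasSum (fun n : ℕ => r ^ n / n !) (Real.exp r) := by
  rw [Real.exp_eq_exp_ℝ]; exact expSeries_div_hasSum_exp r

theorem vanish (s : A) (hs1 : ∀ k, ‖s ^ k‖ ≤ 1) (f : StrongDual ℂ A) (u : ℝ)
    (hu : ∀ n, (f ((algebraMap ℂ A (3 * I) + s) ^ n)).re < u) (k : ℕ) : f (s ^ k) = 0 := by
  let _ : NormedAlgebra ℚ A := NormedAlgebra.restrictScalars ℚ ℂ A
  set B : ℂ → ℂ := fun z => f (exp (z • s)) with hB
  set H : ℂ → ℂ := fun z => f (exp (z • (algebraMap ℂ A (3 * I) + s))) with hH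
  set a : ℕ → ℂ := fun n => f ((algebraMap ℂ A (3 * I) + s) ^ n) with ha
  have hHB : ∀ z, H z = cexp (z * (3 * I)) * B z := by
    intro z
    simp only [hH, hB]
    rw [smul_add, NormedSpace.exp_add, Algebra.smul_def, ← map_mul, ← algebraMap_exp_comm,
      ← Algebra.smul_def, map_smul, smul_eq_mul, Complex.exp_eq_exp_ℂ]
  have hBle : ∀ z, ‖B z‖ ≤ ‖f‖ * Real.exp ‖z‖ := by
    intro z
    refine (hs f s z).norm_le_of_bounded ((hexp ‖z‖).mul_left ‖f‖) fun n => ?_
    rw [norm_mul, norm_div, norm_pow, Complex.norm_natCast, mul_comm]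
    gcongr
    exact (f.le_opNorm _).trans (mul_le_of_le_one_right (norm_nonneg _) (hs1 n))
  have hG : ∀ z : ℂ, HasSum (fun n => z ^ n / n ! * ((2 * (a n).re : ℝ) : ℂ))
      (H z + conj (H (conj z))) := by
    intro z
    have h1 := hs f (algebraMap ℂ A (3 * I) + s) z
    have h2 := (hs f (algebraMap ℂ A (3 * I) + s) (conj z)).mapL conjCLE.toContinuousLinearMap
    have e : (fun n => z ^ n / n ! * ((2 * (a n).re : ℝ) : ℂ)) = fun n => z ^ n / n ! * a n +
        conjCLE.toContinuousLinearMap ((conj z) ^ n / n ! * a n) := by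
      ext n
      rw [← Complex.add_conj]
      simp
      ring
    rw [e]; exact h1.add h2
  have hnH : ∀ z, ‖H z‖ = Real.exp (-3 * z.im) * ‖B z‖ := by
    intro z
    rw [hHB, norm_mul, Complex.norm_exp]
    congr 2
    simp; ring
  have hGle : ∀ z, ‖H z + conj (H (conj z))‖ ≤ (4 * |u| + 2 * ‖f‖) * Real.exp ‖z‖ := by
    intro z
    have h1 := (hG (‖z‖ : ℂ)).mapL reCLM
    have e : (fun n => reCLM ((‖z‖ : ℂ) ^ n / n ! * ((2 * (a n).re : ℝ) : ℂ))) =
        fun n => ‖z‖ ^ n / n ! * (2 * (a n).re) := by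
      ext n
      rw [reCLM_apply, ← Complex.ofReal_pow, ← Complex.ofReal_natCast, ← Complex.ofReal_div,
        ← Complex.ofReal_mul, ofReal_re]
    rw [e] at h1
    have h2 := ((hexp ‖z‖).mul_left (4 * |u|)).sub h1
    refine ((hG z).norm_le_of_bounded h2 fun n => ?_).trans ?_
    · rw [norm_mul, norm_div, norm_pow, Complex.norm_natCast, Complex.norm_real, Real.norm_eq_abs]
      have p : 0 ≤ ‖z‖ ^ n / n ! := by positivity
      have q : |2 * (a n).re| ≤ 4 * |u| - 2 * (a n).re := by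
        have := hu n
        have := le_abs_self u
        have := abs_nonneg u
        change (a n).re < u at *
        cases abs_cases (2 * (a n).re) <;> linarith
      nlinarith
    · rw [reCLM_apply, conj_ofReal, add_re, conj_re]
      have h3 := (abs_le.1 (abs_re_le_norm (H ‖z‖))).1
      have h4 := hBle ‖z‖
      rw [hnH] at h3
      simp only [ofReal_im, mul_zero, Real.exp_zero, one_mul, norm_real, norm_norm] at h3 h4
      linarith
  have hBd : Differentiable ℂ B := fun z =>
    (f.hasFDerivAt.comp_hasDerivAt z (hasDerivAt_exp_smul_const s z)).differentiableAt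
  have hK := pl_zero (K := fun z => cexp (z * (3 / 2 * I)) * B z) (by fun_prop)
    (D := 4 * |u| + 3 * ‖f‖) fun z => by
      have e1 : ‖cexp (z * (3 / 2 * I))‖ = Real.exp (-(3 / 2 * z.im)) := by
        rw [Complex.norm_exp]; congr 1; simp; ring
      have p1 := abs_nonneg u
      have p2 := norm_nonneg f
      have p3 := Real.exp_pos ‖z‖
      rw [norm_mul, e1, Real.exp_sub]
      rcases le_total 0 z.im with h | h
      · rw [abs_of_nonneg h, Real.exp_neg, inv_mul_eq_div, ← mul_div_assoc]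
        gcongr
        nlinarith [hBle z]
      · have h1 := hGle z
        have h2 : ‖H z‖ ≤ ‖H z + conj (H (conj z))‖ + ‖H (conj z)‖ := by
          have := norm_sub_le (H z + conj (H (conj z))) (conj (H (conj z)))
          rwa [add_sub_cancel_right, norm_conj] at this
        have h3 : ‖H (conj z)‖ ≤ ‖f‖ * Real.exp ‖z‖ := by
          rw [hnH]
          have := hBle (conj z)
          rw [norm_conj] at this
          refine (mul_le_of_le_one_left (norm_nonneg _) (Real.exp_le_one_iff.2 ?_)).trans this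
          rw [conj_im]; linarith
        rw [hnH] at h2
        rw [abs_of_nonpos h, ← mul_div_assoc, le_div_iff₀ (Real.exp_pos _), mul_right_comm,
          ← Real.exp_add, show -(3 / 2 * z.im) + 3 / 2 * -z.im = -3 * z.im by ring]
        linarith
  have h0 : ∀ k (z : ℂ), f (s ^ k * exp (z • s)) = 0 := by
    intro k
    induction k with
    | zero =>
      intro z
      have := hK z
      rw [mul_eq_zero] at this
      simpa using this.resolve_left (Complex.exp_ne_zero _)
    | succ k ih =>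
      intro z
      have h1 := f.hasFDerivAt.comp_hasDerivAt z
        ((hasDerivAt_exp_smul_const' s z).const_mul (s ^ k))
      have h2 : (f ∘ fun y : ℂ => s ^ k * exp (y • s)) = fun _ => 0 := funext ih
      rw [h2] at h1
      rw [pow_succ, mul_assoc]
      exact h1.unique (hasDerivAt_const z 0)
  simpa using h0 k 0

theorem main (s : A) (h1 : ‖(1 : A)‖ ≤ 1) (hs : ∀ x, ‖s * x‖ = ‖x‖) (hu : ¬ IsUnit s)
    (hd : ∀ f : StrongDual ℂ A, (∀ k, f (s ^ k) = 0) → f = 0) :
    ∃ T : A →L[ℂ] A, (∃ x, Dense (convexHull ℝ (range fun n : ℕ => (T ^ n) x))) ∧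
      ¬ Dense {x | Dense (convexHull ℝ (range fun n : ℕ => (T ^ n) x))} := by
  have hs1 : ∀ k, ‖s ^ k‖ ≤ 1 := by
    intro k
    induction k with
    | zero => simpa using h1
    | succ k ih => rwa [pow_succ', hs]
  set T := ContinuousLinearMap.mul ℂ A (algebraMap ℂ A (3 * I) + s) with hT
  have hTn : ∀ n x, (T ^ n) x = (algebraMap ℂ A (3 * I) + s) ^ n * x := by
    intro n x
    induction n with
    | zero => simp
    | succ n ih => rw [pow_succ', mul_apply_eq_comp, ih, pow_succ', mul_assoc]; rfl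
  refine ⟨T, ⟨1, fun y => ?_⟩, fun h => ?_⟩
  · by_contra hy
    obtain ⟨g, u, hg1, hg2⟩ := RCLike.geometric_hahn_banach_closed_point (𝕜 := ℂ)
      (convex_convexHull ℝ _).closure isClosed_closure hy
    have hg3 : ∀ n, (g ((algebraMap ℂ A (3 * I) + s) ^ n)).re < u := fun n =>
      hg1 _ (subset_closure (subset_convexHull ℝ _ ⟨n, by simp [hTn]⟩))
    have := hd g (vanish s hs1 g u hg3)
    have h3 := hg3 0
    rw [this] at h3 hg2
    simp at h3 hg2
    linarith
  · obtain ⟨y, hy1, hy2⟩ := h.exists_dist_lt s (show (0:ℝ) < 1 / 3 by norm_num)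
    obtain ⟨w, hw1, hw2⟩ := Dense.exists_dist_lt hy1 1 one_pos
    have h2 : convexHull ℝ (range fun n : ℕ => (T ^ n) y) ⊆ {w | ∃ v, w = v * y} := by
      refine convexHull_min ?_ ?_
      · rintro _ ⟨n, rfl⟩; exact ⟨_, hTn n y⟩
      · rintro _ ⟨v, rfl⟩ _ ⟨v', rfl⟩ a b _ _ _
        refine ⟨(a : ℂ) • v + (b : ℂ) • v', ?_⟩
        rw [add_mul, smul_mul_assoc, smul_mul_assoc]; rfl
    obtain ⟨v, rfl⟩ := h2 hw1
    rw [dist_eq_norm] at hw2 hy2
    have h3 : IsUnit (v * y) := by
      simpa using isUnit_one_sub_of_norm_lt_one hw2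
    obtain ⟨w, hw⟩ := (isUnit_of_mul_isUnit_right h3).exists_left_inv
    have h4 : ‖(s - y) * w‖ ≤ 1 / 3 * ‖w‖ := (norm_mul_le _ _).trans (by gcongr)
    have h5 : ‖w‖ ≤ 1 + ‖(s - y) * w‖ := by
      rw [← hs w, show s * w = 1 + (s - y) * w by rw [← hw]; ring]
      exact (norm_add_le _ _).trans (by gcongr)
    have h6 : IsUnit (1 - -((s - y) * w)) :=
      isUnit_one_sub_of_norm_lt_one (by rw [norm_neg]; linarith)
    rw [show 1 - -((s - y) * w) = s * w by rw [← hw]; ring] at h6
    exact hu (isUnit_of_mul_isUnit_left h6)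

end Pool.Agent.H.MP_0f7a95_an
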